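import Pool.Agent.H12Z.GmcMain

set_option autoImplicit false

open MeasureTheory ProbabilityTheory Filter Topology Pool.Agent.H12Z.Gmc

/-- In dimension one, for an admissible kernel `g = log⁺(1/|x|) + h` and some `μ ∈ (0, 2)`, the
logarithm of the total mass `M` of the Gaussian multiplicative chaos on the ball `(-1/2, 1/2)` with
weight `φ = 1` is not infinitely divisible. -/
theorem Pool.Agent.Results.MP_6ad96e_pr.NotInfDiv.result :
    ∃ (h : ℝ → ℝ) (μ : ℝ), Continuous h ∧ (∃ C, ∀ x, |h x| ≤ C) ∧ IsPosDef (kernel h) ∧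
      0 < μ ∧ μ < 2 ∧
      ∀ θ : ℝ → ℝ, IsMollifier θ → ∀ ε : ℕ → ℝ, (∀ k, 0 < ε k) → Tendsto ε atTop (𝓝 0) →
      ∀ (Ω : ℕ → Type) [∀ k, MeasurableSpace (Ω k)] (P : ∀ k, Measure (Ω k))
        [∀ k, IsProbabilityMeasure (P k)] (ω : ∀ k, ℝ → Ω k → ℝ),
        (∀ k, IsField (fun z => μ * conv (scaled θ (ε k)) (kernel h) z) (ω k) (P k)) →
      ∀ (Ω' : Type) [MeasurableSpace Ω'] (P' : Measure Ω') [IsProbabilityMeasure P'] (M : Ω' → ℝ),
        (∀ᵐ w ∂P', 0 < M w) →
        TendstoInDistribution (fun k => mass (fun _ => 1) (Metric.ball 0 (1 / 2)) (ω k)) atTop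
          M P P' → ¬ InfDiv (P'.map fun w => Real.log (M w)) := by
  obtain ⟨b, μ, hb, h0, h2, h⟩ := main
  refine ⟨fun x => b * Real.cos x, μ, by fun_prop, ⟨b, fun x => ?_⟩, isPosDef_kernel hb, h0, h2, ?_⟩
  · rw [abs_mul, abs_of_nonneg hb]
    exact mul_le_of_le_one_right hb (Real.abs_cos_le_one x)
  · intro θ hθ ε hε hε0 Ω _ P _ ω hω Ω' _ P' _ M hM hlim
    have hm : AEMeasurable (fun w => Real.log (M w)) P' :=
      Real.measurable_log.comp_aemeasurable hlim.aemeasurable_limit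
    have := Measure.isProbabilityMeasure_map hm
    have e : (P'.map fun w => Real.log (M w)).map Real.exp = P'.map M := by
      rw [AEMeasurable.map_map_of_aemeasurable Real.measurable_exp.aemeasurable hm]
      exact Measure.map_congr (hM.mono fun w hw => Real.exp_log hw)
    refine h θ hθ ε hε hε0 Ω P ω hω _ ⟨hlim.forall_aemeasurable, by fun_prop, ?_⟩
    simp only [e]
    exact hlim.tendsto
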